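import Pool.Agent.Helper33.DZ.Stmts

set_option autoImplicit false

/-!
# Dimension of the space of cusp forms (module DIM)
-/

namespace Pool.Agent.Helper33.DZ

open MatrixGroups ModularForm

theorem dim_congr {Γ Γ' : Subgroup (GL (Fin 2) ℝ)} (h : Γ = Γ') [Γ.HasDetOne] [Γ'.HasDetOne]
    (k : ℤ) : Module.finrank ℂ (CuspForm Γ k) = Module.finrank ℂ (CuspForm Γ' k) := by
  subst h
  rfl

theorem dim_rank (m : ℕ) : dS m = Module.finrank ℂ (ModularForm 𝒮ℒ (2 * (m : ℤ) - 12)) := by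
  unfold dS
  rw [dim_congr CongruenceSubgroup.Gamma_one_coe_eq_SL (2 * (m : ℤ))]
  exact CuspForm.discriminantEquiv.finrank_eq

theorem dim_small {m : ℕ} (hm : m < 6) : dS m = 0 := by
  rw [dim_rank, Module.finrank, levelOne_neg_weight_rank_zero (by omega)]
  exact map_zero _

theorem dim_big {m : ℕ} (hm : 6 ≤ m) :
    dS m = if (2 * m - 12) % 12 = 2 then (2 * m - 12) / 12 else (2 * m - 12) / 12 + 1 := by
  have h := dimension_level_one (2 * m - 12) ⟨m - 6, by omega⟩
  rw [dim_rank, Module.finrank,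
    show (2 * (m : ℤ) - 12 : ℤ) = ((2 * m - 12 : ℕ) : ℤ) by omega, h]
  have h2 : (2 * m - 12 ≡ 2 [MOD 12]) ↔ (2 * m - 12) % 12 = 2 := by
    unfold Nat.ModEq
    norm_num
  by_cases h3 : (2 * m - 12) % 12 = 2
  · rw [if_pos (h2.2 h3), if_pos h3, Cardinal.toNat_natCast]
  · rw [if_neg (fun h4 => h3 (h2.1 h4)), if_neg h3]
    exact Cardinal.toNat_natCast _

theorem st_DIM : ST_DIM := by
  intro m
  rcases lt_or_ge m 6 with hm | hm
  · rw [dim_small hm]
    exact ⟨by omega, fun h => absurd h (lt_irrefl 0)⟩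
  · have h := dim_big hm
    by_cases h3 : (2 * m - 12) % 12 = 2
    · rw [if_pos h3] at h
      refine ⟨by omega, fun h0 => ?_⟩
      rw [h] at h0 ⊢
      by_cases h4 : (2 * m - 12) % 4 = 0
      · exact ⟨(2 * m - 12) / 4, 0, by omega, by omega⟩
      · exact ⟨(2 * m - 18) / 4, 1, by omega, by omega⟩
    · rw [if_neg h3] at h
      refine ⟨by omega, fun h0 => ?_⟩
      rw [h]
      by_cases h4 : (2 * m - 12) % 4 = 0
      · exact ⟨(2 * m - 12) / 4, 0, by omega, by omega⟩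
      · exact ⟨(2 * m - 18) / 4, 1, by omega, by omega⟩

end Pool.Agent.Helper33.DZ
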